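import Pool.Agent.W78.GT.Basic

/-!
Project GT (helper78), task GT-6, part 1: the box lemma and the number of roots.
-/

set_option autoImplicit false

namespace Pool.Agent.W29.GT

open Finset Filter
open Pool.Agent.W78.GT

variable {t c : ℤ}

/-- the binary quadratic forms `(a, b, c')` of discriminant `t^2-4c` with small coefficients -/
noncomputable def forms (t c : ℤ) (C : ℕ) : Finset (ℤ × ℤ × ℤ) :=
  ((Icc (-(C : ℤ)) C) ×ˢ ((Icc (-(C : ℤ)) C) ×ˢ (Icc (-(C : ℤ)) C))).filter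
    (fun F => F.2.1 ^ 2 - 4 * F.1 * F.2.2 = t ^ 2 - 4 * c)

/-- the value of a form -/
def fv (F : ℤ × ℤ × ℤ) (v : ℤ × ℤ) : ℤ := F.1 * v.1 ^ 2 + F.2.1 * v.1 * v.2 + F.2.2 * v.2 ^ 2

/-- the polar form -/
def fb (F : ℤ × ℤ × ℤ) (v u : ℤ × ℤ) : ℤ :=
  2 * F.1 * v.1 * u.1 + F.2.1 * (v.1 * u.2 + v.2 * u.1) + 2 * F.2.2 * v.2 * u.2

/-- the box -/
noncomputable def box (L : ℕ) : Finset (ℤ × ℤ) := (Icc (-(L : ℤ)) L) ×ˢ (Icc (-(L : ℤ)) L)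

theorem mem_forms {C : ℕ} {F : ℤ × ℤ × ℤ} : F ∈ forms t c C ↔
    (|F.1| ≤ C ∧ |F.2.1| ≤ C ∧ |F.2.2| ≤ C) ∧ F.2.1 ^ 2 - 4 * F.1 * F.2.2 = t ^ 2 - 4 * c := by
  unfold forms
  simp only [mem_filter, mem_product, mem_Icc, abs_le]

theorem mem_box {L : ℕ} {v : ℤ × ℤ} : v ∈ box L ↔ |v.1| ≤ L ∧ |v.2| ≤ L := by
  unfold box
  simp only [mem_product, mem_Icc, abs_le]

theorem card_box (L : ℕ) : (box L).card = (2 * L + 1) ^ 2 := by
  unfold box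
  rw [card_product, Int.card_Icc]
  have : ((L : ℤ) + 1 - -(L : ℤ)).toNat = 2 * L + 1 := by omega
  rw [this, sq]

/-- `F`, `v` represent the root `(d, r)` -/
def Rel (t : ℤ) (F : ℤ × ℤ × ℤ) (v : ℤ × ℤ) (e : ℕ × ℤ) : Prop :=
  fv F v = e.1 ∧ ∃ (n : ℤ) (u : ℤ × ℤ), v.1 * u.2 - v.2 * u.1 = 1 ∧ fb F v u = 2 * n + t ∧
    (e.1 : ℤ) ∣ n - e.2

theorem rel_inj {F : ℤ × ℤ × ℤ} {v : ℤ × ℤ} {e e' : ℕ × ℤ} (h : Rel t F v e)
    (h' : Rel t F v e') (he : 0 ≤ e.2 ∧ e.2 < e.1) (he' : 0 ≤ e'.2 ∧ e'.2 < e'.1) : e = e' := by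
  obtain ⟨h1, n, u, h2, h3, h4⟩ := h
  obtain ⟨h1', n', u', h2', h3', h4'⟩ := h'
  have hd : (e.1 : ℤ) = e'.1 := by rw [← h1, h1']
  have hd' : e.1 = e'.1 := by exact_mod_cast hd
  have hk : ∃ k : ℤ, n - n' = k * e.1 := by
    refine ⟨(u.1 - u'.1) * u.2 - (u.2 - u'.2) * u.1, ?_⟩
    have hw : v.1 * (u.2 - u'.2) = v.2 * (u.1 - u'.1) := by linear_combination h2 - h2'
    have e1 : ((u.1 - u'.1) * u.2 - (u.2 - u'.2) * u.1) * v.1 = u.1 - u'.1 := by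
      linear_combination (u.1 - u'.1) * h2 - u.1 * hw
    have e2 : ((u.1 - u'.1) * u.2 - (u.2 - u'.2) * u.1) * v.2 = u.2 - u'.2 := by
      linear_combination (u.2 - u'.2) * h2 - u.2 * hw
    set k := (u.1 - u'.1) * u.2 - (u.2 - u'.2) * u.1 with hkdef
    have e3 : 2 * (n - n') = 2 * (k * e.1) := by
      rw [← h1]
      unfold fb at h3 h3'
      unfold fv
      linear_combination h3' - h3 - (2 * F.1 * v.1 + F.2.1 * v.2) * e1 -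
        (F.2.1 * v.1 + 2 * F.2.2 * v.2) * e2
    linarith
  obtain ⟨k, hk⟩ := hk
  have hdvd : (e.1 : ℤ) ∣ e.2 - e'.2 := by
    have h5 : (e.1 : ℤ) ∣ n' - e'.2 := by rw [hd]; exact h4'
    have h6 : (e.1 : ℤ) ∣ n - n' := ⟨k, by rw [hk]; ring⟩
    have h7 : e.2 - e'.2 = (n' - e'.2) + (n - n') - (n - e.2) := by ring
    rw [h7]
    exact dvd_sub (dvd_add h5 h6) h4
  have habs : |e.2 - e'.2| < (e.1 : ℤ) := by
    rw [abs_lt]
    rw [← hd] at he'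
    constructor <;> omega
  have h0 := Int.eq_zero_of_abs_lt_dvd hdvd habs
  exact Prod.ext hd' (by omega)

/-- every root is represented -/
theorem exists_rel {C : ℕ} (hC : 1 ≤ C)
    (h : ∀ (d : ℕ) (n : ℤ) (d' : ℕ), 1 ≤ d → 1 ≤ d' →
      (d : ℤ) * d' = Qp t c n → ∃ a b c' v₁ v₂ u₁ u₂ : ℤ, |a| ≤ C ∧ |b| ≤ C ∧ |c'| ≤ C ∧
      b ^ 2 - 4 * a * c' = t ^ 2 - 4 * c ∧ v₁ * u₂ - v₂ * u₁ = 1 ∧
      v₁ ^ 2 + v₂ ^ 2 ≤ C * d ∧ u₁ ^ 2 + u₂ ^ 2 ≤ C * d' ∧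
      a * v₁ ^ 2 + b * v₁ * v₂ + c' * v₂ ^ 2 = d ∧ a * u₁ ^ 2 + b * u₁ * u₂ + c' * u₂ ^ 2 = d' ∧
      2 * a * v₁ * u₁ + b * (v₁ * u₂ + v₂ * u₁) + 2 * c' * v₂ * u₂ = 2 * n + t)
    {Y : ℝ} {e : ℕ × ℤ} (he : e ∈ rts t c Y) :
    ∃ F ∈ forms t c C, ∃ v ∈ box ⌊(C : ℝ) * Real.sqrt Y⌋₊, Int.gcd v.1 v.2 = 1 ∧ Rel t F v e := by
  obtain ⟨e1, e2, e3, e4, e5⟩ := mem_rts.1 he
  have hd0 : (0 : ℤ) < e.1 := by exact_mod_cast e1
  set n : ℤ := e.2 + e.1 * (|t| + |c| + 1) with hn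
  have ht := abs_nonneg t
  have hc := abs_nonneg c
  have hn1 : |t| + |c| + 1 ≤ n := by nlinarith
  have hQ : 1 ≤ Qp t c n := by
    unfold Qp
    have h1 : -|t| * n ≤ t * n := mul_le_mul_of_nonneg_right (neg_abs_le t) (by linarith)
    have h2 := neg_abs_le c
    nlinarith
  have hdvd : (e.1 : ℤ) ∣ Qp t c n := by
    have h1 : (e.1 : ℤ) ∣ n - e.2 := ⟨|t| + |c| + 1, by rw [hn]; ring⟩
    have h2 := Qp_congr (t := t) (c := c) h1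
    have := dvd_add h2 e3
    simpa using this
  obtain ⟨k, hk⟩ := hdvd
  have hk0 : 0 < k := by
    by_contra hcon
    push Not at hcon
    nlinarith
  obtain ⟨d', rfl⟩ := Int.eq_ofNat_of_zero_le hk0.le
  have hd' : 1 ≤ d' := by exact_mod_cast hk0
  obtain ⟨a, b, c', v₁, v₂, u₁, u₂, ha, hb, hc', hdisc, hdet, hv, -, hFv, -, hB⟩ :=
    h e.1 n d' e1 hd' hk.symm
  refine ⟨(a, b, c'), mem_forms.2 ⟨⟨ha, hb, hc'⟩, hdisc⟩, (v₁, v₂), ?_, ?_, hFv, n, (u₁, u₂),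
    hdet, hB, ⟨|t| + |c| + 1, by rw [hn]; ring⟩⟩
  · have hC0 : (1 : ℝ) ≤ C := by exact_mod_cast hC
    have h1 : ((v₁ ^ 2 + v₂ ^ 2 : ℤ) : ℝ) ≤ C * Y := by
      have h2 : ((v₁ ^ 2 + v₂ ^ 2 : ℤ) : ℝ) ≤ ((C * e.1 : ℤ) : ℝ) := by exact_mod_cast hv
      refine h2.trans ?_
      push_cast
      exact mul_le_mul_of_nonneg_left e2 (by linarith)
    have hY : 0 ≤ Y := le_trans (Nat.cast_nonneg _) e2
    have h3 : ∀ w : ℤ, (w : ℝ) ^ 2 ≤ C * Y → |w| ≤ (⌊(C : ℝ) * Real.sqrt Y⌋₊ : ℤ) := by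
      intro w hw
      have h4 : (w : ℝ) ^ 2 ≤ (C * Real.sqrt Y) ^ 2 := by
        rw [mul_pow, Real.sq_sqrt hY]
        refine hw.trans ?_
        apply mul_le_mul_of_nonneg_right _ hY
        nlinarith
      have h5 : |(w : ℝ)| ≤ C * Real.sqrt Y := by
        rw [← abs_of_nonneg (by positivity : 0 ≤ (C : ℝ) * Real.sqrt Y)]
        exact sq_le_sq.1 h4
      have h6 : ((w.natAbs : ℕ) : ℝ) ≤ C * Real.sqrt Y := by
        rw [Nat.cast_natAbs, Int.cast_abs]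
        exact h5
      have h7 := Nat.le_floor h6
      rw [Int.abs_eq_natAbs]
      exact_mod_cast h7
    push_cast at h1
    rw [mem_box]
    exact ⟨h3 v₁ (by nlinarith [sq_nonneg (v₂ : ℝ)]), h3 v₂ (by nlinarith [sq_nonneg (v₁ : ℝ)])⟩
  · rw [← Int.isCoprime_iff_gcd_eq_one]
    exact ⟨u₂, -u₁, by simp only; linear_combination hdet⟩

open scoped Classical in
/-- the vectors in the box with a value with property `P` -/
noncomputable def pbox (F : ℤ × ℤ × ℤ) (L : ℕ) (P : ℕ → Prop) : Finset (ℤ × ℤ) :=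
  (box L).filter (fun v => Int.gcd v.1 v.2 = 1 ∧ 1 ≤ fv F v ∧ P (fv F v).natAbs)

theorem mem_pbox {F : ℤ × ℤ × ℤ} {L : ℕ} {P : ℕ → Prop} {v : ℤ × ℤ} :
    v ∈ pbox F L P ↔ v ∈ box L ∧ Int.gcd v.1 v.2 = 1 ∧ 1 ≤ fv F v ∧ P (fv F v).natAbs := by
  classical
  unfold pbox
  exact mem_filter

theorem pbox_card_le (F : ℤ × ℤ × ℤ) (L : ℕ) (P : ℕ → Prop) :
    (pbox F L P).card ≤ (2 * L + 1) ^ 2 := by
  classical
  rw [← card_box]
  exact card_filter_le _ _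

open scoped Classical in
/-- the box lemma -/
theorem vbox_of (hrep : S_REP t c) : ∃ C : ℕ, 1 ≤ C ∧ ∀ (Y : ℝ) (P : ℕ → Prop),
    ((rts t c Y).filter (fun e => P e.1)).card ≤
      ∑ F ∈ forms t c C, (pbox F ⌊(C : ℝ) * Real.sqrt Y⌋₊ (fun d => P d ∧ (d : ℝ) ≤ Y)).card := by
  obtain ⟨C, hC, h⟩ := hrep
  refine ⟨C, hC, fun Y P => ?_⟩
  have hex := fun e (he : e ∈ rts t c Y) => exists_rel hC h he
  choose! F hF v hv hgcd hrel using hex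
  rw [← Finset.card_sigma]
  apply Finset.card_le_card_of_injOn (fun e => (⟨F e, v e⟩ : Σ _ : ℤ × ℤ × ℤ, ℤ × ℤ))
  · intro e he
    rw [mem_coe, mem_filter] at he
    obtain ⟨he, hP⟩ := he
    obtain ⟨e1, e2, -, -, -⟩ := mem_rts.1 he
    rw [mem_coe, mem_sigma]
    refine ⟨hF e he, ?_⟩
    simp only
    rw [mem_pbox]
    have h1 := (hrel e he).1
    refine ⟨hv e he, hgcd e he, ?_, ?_⟩
    · rw [h1]; exact_mod_cast e1
    · rw [h1, Int.natAbs_natCast]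
      exact ⟨hP, e2⟩
  · intro e he e' he' hee
    rw [mem_coe, mem_filter] at he he'
    have h1 := congrArg Sigma.fst hee
    simp only at h1
    have h2 : v e = v e' := by
      simp only [Sigma.mk.injEq, heq_eq_eq] at hee
      exact hee.2
    obtain ⟨-, -, -, a4, a5⟩ := mem_rts.1 he.1
    obtain ⟨-, -, -, b4, b5⟩ := mem_rts.1 he'.1
    have h3 := hrel e he.1
    have h4 := hrel e' he'.1
    rw [← h1, ← h2] at h4
    exact rel_inj h3 h4 ⟨a4, a5⟩ ⟨b4, b5⟩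

/-- ROOT -/
theorem root_of (hrep : S_REP t c) : S_ROOT t c := by
  classical
  obtain ⟨C, hC, h⟩ := vbox_of hrep
  have hC1 : (1 : ℝ) ≤ C := by exact_mod_cast hC
  refine ⟨((forms t c C).card + 1) * (3 * C) ^ 2, by positivity, fun Y hY => ?_⟩
  rcases lt_or_ge Y 1 with hY1 | hY1
  · have h0 : rts t c Y = ∅ := by
      apply Finset.eq_empty_of_forall_notMem
      intro e he
      obtain ⟨e1, e2, -⟩ := mem_rts.1 he
      have : (1 : ℝ) ≤ e.1 := by exact_mod_cast e1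
      linarith
    rw [h0, card_empty, Nat.cast_zero]
    positivity
  · have h1 := h Y (fun _ => True)
    rw [filter_true] at h1
    have h2 : ∀ F ∈ forms t c C,
        (pbox F ⌊(C : ℝ) * Real.sqrt Y⌋₊ (fun d => True ∧ (d : ℝ) ≤ Y)).card ≤
          (2 * ⌊(C : ℝ) * Real.sqrt Y⌋₊ + 1) ^ 2 := by
      intro F _
      exact pbox_card_le _ _ _
    have h3 : ((rts t c Y).card : ℝ) ≤
        (forms t c C).card * ((2 * ⌊(C : ℝ) * Real.sqrt Y⌋₊ + 1 : ℝ)) ^ 2 := by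
      have h4 := h1.trans (Finset.sum_le_card_nsmul _ _ _ h2)
      rw [smul_eq_mul] at h4
      exact_mod_cast h4
    refine h3.trans ?_
    have hs1 : 1 ≤ Real.sqrt Y := by rw [Real.one_le_sqrt]; exact hY1
    have h5 : (⌊(C : ℝ) * Real.sqrt Y⌋₊ : ℝ) ≤ C * Real.sqrt Y := Nat.floor_le (by positivity)
    have h6 : (2 * ⌊(C : ℝ) * Real.sqrt Y⌋₊ + 1 : ℝ) ≤ 3 * C * Real.sqrt Y := by nlinarith
    have h7 : (2 * ⌊(C : ℝ) * Real.sqrt Y⌋₊ + 1 : ℝ) ^ 2 ≤ (3 * C) ^ 2 * Y := by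
      calc (2 * ⌊(C : ℝ) * Real.sqrt Y⌋₊ + 1 : ℝ) ^ 2 ≤ (3 * C * Real.sqrt Y) ^ 2 :=
            pow_le_pow_left₀ (by positivity) h6 2
        _ = _ := by rw [mul_pow, Real.sq_sqrt hY]
    calc ((forms t c C).card : ℝ) * (2 * ⌊(C : ℝ) * Real.sqrt Y⌋₊ + 1 : ℝ) ^ 2
        ≤ (forms t c C).card * ((3 * C) ^ 2 * Y) := mul_le_mul_of_nonneg_left h7 (by positivity)
      _ ≤ ((forms t c C).card + 1) * ((3 * C) ^ 2 * Y) :=
          mul_le_mul_of_nonneg_right (by linarith) (by positivity)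
      _ = _ := by ring

end Pool.Agent.W29.GT
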