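import Pool.Agent.W78.GT.Basic
import Pool.Agent.W29.GA.Typ2
import Pool.Agent.W29.GR.Typ2
import Pool.Agent.W45.GA.Lat
import Pool.Agent.W322.GA.Red
import Pool.Agent.W322.GA.LatI
import Pool.Agent.W398.GR.Lat
import Pool.Agent.W880.GR.Red
import Pool.Agent.W880.GR.LatI
import Pool.Agent.W376.GR.Unit

/-!
Project GT (helper78), task GT-8, part 1: Mertens theorem for the roots modulo primes.
-/

set_option autoImplicit false

namespace Pool.Agent.W29.GT

open Finset Filter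
open Pool.Agent.W78.GT

variable {t c : ℤ}

/-- pairs of a prime `5 ≤ p ≤ y`, not dividing the discriminant, and a root modulo `p` -/
theorem exists_TT (hns : ¬ IsSquare (t ^ 2 - 4 * c)) : ∃ (T : ℕ → Finset (ℕ × ℤ)) (K : ℝ),
    0 ≤ K ∧ (∀ (y : ℕ) (e : ℕ × ℤ), 5 ≤ e.1 → e.1 ≤ y → e.1.Prime → ¬ (e.1 : ℤ) ∣ t ^ 2 - 4 * c →
      0 ≤ e.2 → e.2 < e.1 → (e.1 : ℤ) ∣ e.2 ^ 2 - t * e.2 + c → e ∈ T y) ∧
    ∀ N : ℕ, 2 ≤ N → ∑ e ∈ T N, 1 / (e.1 : ℝ) ≤ Real.log (Real.log N) + K := by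
  rcases lt_trichotomy (t ^ 2) (4 * c) with h | h | h
  · have hlat : Pool.Agent.W78.GA.S_LAT t c := Pool.Agent.W45.GA.lat h
    have hred : Pool.Agent.W78.GA.S_RED t c := Pool.Agent.W322.GA.red h
    have hlati : Pool.Agent.W78.GA.S_LATI t c := Pool.Agent.W322.GA.lati_of h hlat hred
    obtain ⟨K, hK, hM⟩ := Pool.Agent.W29.GA.mert_one h hlati
    exact ⟨Pool.Agent.W29.GA.TT t c, K, hK, fun y e h1 h2 h3 h4 h5 h6 h7 =>
      Pool.Agent.W29.GA.mem_TT.2 ⟨h1, h2, h3, h4, h5, h6, h7⟩, hM⟩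
  · exact absurd (by rw [h, sub_self]; exact IsSquare.zero) hns
  · obtain ⟨η, U⟩ := Pool.Agent.W376.GR.unit h hns
    have hlat : Pool.Agent.W78.GR.S_LAT t c η := Pool.Agent.W398.GR.lat U
    have hred : Pool.Agent.W78.GR.S_RED t c := Pool.Agent.W880.GR.red U.disc U.nsq
    have hlati : Pool.Agent.W78.GR.S_LATI t c η := Pool.Agent.W880.GR.lati_of U hlat hred
    obtain ⟨K, hK, hM⟩ := Pool.Agent.W29.GR.mert_one U hlati
    exact ⟨Pool.Agent.W29.GR.TT t c, K, hK, fun y e h1 h2 h3 h4 h5 h6 h7 =>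
      Pool.Agent.W29.GR.mem_TT.2 ⟨h1, h2, h3, h4, h5, h6, h7⟩, hM⟩

/-- MERT -/
theorem mert (hns : ¬ IsSquare (t ^ 2 - 4 * c)) : S_MERT t c := by
  classical
  obtain ⟨T, K, hK, hT, hM⟩ := exists_TT hns
  set D : ℕ := (t ^ 2 - 4 * c).natAbs with hD
  have hD0 : D ≠ 0 := by
    intro h
    rw [hD, Int.natAbs_eq_zero] at h
    exact hns (by rw [h]; exact IsSquare.zero)
  refine ⟨K + (D + 5), fun y hy => ?_⟩
  set S := (rts t c y).filter (fun e => e.1.Prime) with hS
  rw [← Finset.sum_filter_add_sum_filter_not S (fun e => e.1 < 5 ∨ (e.1 : ℤ) ∣ t ^ 2 - 4 * c)]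
  have h1 : ∑ e ∈ S.filter (fun e => e.1 < 5 ∨ (e.1 : ℤ) ∣ t ^ 2 - 4 * c), 1 / (e.1 : ℝ) ≤
      (D : ℝ) + 5 := by
    have hmaps : ∀ e ∈ S.filter (fun e => e.1 < 5 ∨ (e.1 : ℤ) ∣ t ^ 2 - 4 * c),
        e.1 ∈ range (D + 5) := by
      intro e he
      rw [mem_filter] at he
      rw [mem_range]
      rcases he.2 with h | h
      · omega
      · have h2 : e.1 ∣ D := by
          have := Int.natAbs_dvd_natAbs.2 h
          rwa [Int.natAbs_natCast] at this
        have := Nat.le_of_dvd (Nat.pos_of_ne_zero hD0) h2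
        omega
    rw [← Finset.sum_fiberwise_of_maps_to hmaps]
    have h2 : ∀ p ∈ range (D + 5),
        ∑ e ∈ (S.filter (fun e => e.1 < 5 ∨ (e.1 : ℤ) ∣ t ^ 2 - 4 * c)).filter
          (fun e => e.1 = p), 1 / (e.1 : ℝ) ≤ 1 := by
      intro p _
      set F := (S.filter (fun e => e.1 < 5 ∨ (e.1 : ℤ) ∣ t ^ 2 - 4 * c)).filter
        (fun e => e.1 = p) with hF
      rcases F.eq_empty_or_nonempty with h0 | ⟨e0, he0⟩
      · rw [h0, sum_empty]
        norm_num
      · have hp1 : 1 ≤ p := by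
          rw [hF, mem_filter, mem_filter, hS, mem_filter] at he0
          have := (mem_rts.1 he0.1.1.1).1
          omega
        have hp0 : (0 : ℝ) < p := by exact_mod_cast hp1
        have hcard : F.card ≤ p := by
          have h3 : F.card ≤ (Ico (0 : ℤ) p).card := by
            apply Finset.card_le_card_of_injOn (fun e => e.2)
            · intro e he
              rw [mem_coe, hF, mem_filter, mem_filter, hS, mem_filter] at he
              obtain ⟨-, -, -, a4, a5⟩ := mem_rts.1 he.1.1.1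
              rw [he.2] at a5
              rw [mem_coe, mem_Ico]
              exact ⟨a4, a5⟩
            · intro e he f hf h
              rw [mem_coe, hF, mem_filter] at he hf
              exact Prod.ext (he.2.trans hf.2.symm) h
          rw [Int.card_Ico] at h3
          omega
        have h3 : ∑ e ∈ F, 1 / (e.1 : ℝ) = ∑ e ∈ F, 1 / (p : ℝ) := by
          refine Finset.sum_congr rfl fun e he => ?_
          rw [hF, mem_filter] at he
          rw [he.2]
        rw [h3, sum_const, nsmul_eq_mul, mul_one_div, div_le_one hp0]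
        exact_mod_cast hcard
    refine (Finset.sum_le_card_nsmul _ _ _ h2).trans ?_
    rw [card_range, nsmul_eq_mul, mul_one]
    push_cast
    linarith
  have h2 : ∑ e ∈ S.filter (fun e => ¬ (e.1 < 5 ∨ (e.1 : ℤ) ∣ t ^ 2 - 4 * c)), 1 / (e.1 : ℝ) ≤
      ∑ e ∈ T y, 1 / (e.1 : ℝ) := by
    set F := S.filter (fun e => ¬ (e.1 < 5 ∨ (e.1 : ℤ) ∣ t ^ 2 - 4 * c)) with hF
    set g : ℕ × ℤ → ℕ × ℤ := fun e => (e.1, (-e.2) % (e.1 : ℤ)) with hg
    have hinj : Set.InjOn g F := by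
      intro e he f hf h
      have h3 : (g e).1 = (g f).1 := congrArg Prod.fst h
      have h4 : (g e).2 = (g f).2 := congrArg Prod.snd h
      change e.1 = f.1 at h3
      change (-e.2) % (e.1 : ℤ) = (-f.2) % (f.1 : ℤ) at h4
      rw [mem_coe, hF, mem_filter, hS, mem_filter] at he hf
      obtain ⟨-, -, -, a4, a5⟩ := mem_rts.1 he.1.1
      obtain ⟨-, -, -, b4, b5⟩ := mem_rts.1 hf.1.1
      rw [← h3] at h4 b5
      have h5 : (e.1 : ℤ) ∣ (-e.2) - (-f.2) := Int.ModEq.dvd (Int.ModEq.symm h4)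
      have h6 : (-e.2) - (-f.2) = f.2 - e.2 := by ring
      rw [h6] at h5
      have h7 := Int.eq_zero_of_abs_lt_dvd h5 (by rw [abs_lt]; constructor <;> omega)
      exact Prod.ext h3 (by omega)
    have himg : ∑ e ∈ F, 1 / (e.1 : ℝ) = ∑ e ∈ F.image g, 1 / (e.1 : ℝ) := by
      rw [Finset.sum_image hinj]
    rw [himg]
    apply Finset.sum_le_sum_of_subset_of_nonneg
    · intro e' he'
      rw [mem_image] at he'
      obtain ⟨e, he, rfl⟩ := he'
      rw [hF, mem_filter, hS, mem_filter] at he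
      obtain ⟨⟨he1, hp⟩, hno⟩ := he
      push Not at hno
      obtain ⟨a1, a2, a3, a4, a5⟩ := mem_rts.1 he1
      have he0 : (0 : ℤ) < e.1 := by exact_mod_cast a1
      apply hT y (g e) hno.1 (by exact_mod_cast a2) hp hno.2 (Int.emod_nonneg _ he0.ne')
        (Int.emod_lt_of_pos _ he0)
      simp only [hg]
      have h8 : (e.1 : ℤ) ∣ (-e.2) - (-e.2) % (e.1 : ℤ) := Int.dvd_self_sub_emod
      obtain ⟨k, hk⟩ := h8
      have h9 : (-e.2) % (e.1 : ℤ) = -e.2 - e.1 * k := by linarith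
      rw [h9]
      have h10 : (-e.2 - e.1 * k) ^ 2 - t * (-e.2 - e.1 * k) + c
          = Qp t c e.2 + e.1 * (k * (2 * e.2 + e.1 * k + t)) := by
        unfold Qp
        ring
      rw [h10]
      exact dvd_add a3 (dvd_mul_right _ _)
    · intro e _ _
      positivity
  have h3 := hM y (by omega)
  linarith

end Pool.Agent.W29.GT
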