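import Pool.Agent.W29.GT.TypG
import Pool.Agent.W29.GA.Typ
import Pool.Agent.W29.GR.Typ
import Pool.Agent.W45.GA.Lat
import Pool.Agent.W322.GA.Red
import Pool.Agent.W322.GA.LatI
import Pool.Agent.W398.GR.Lat
import Pool.Agent.W880.GR.Red
import Pool.Agent.W880.GR.LatI
import Pool.Agent.W376.GR.Unit

/-!
Project GT (helper78), task GT-8, part 3: the typical number of prime factors.
-/

set_option autoImplicit false

namespace Pool.Agent.W29.GT

open Finset Filter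
open Pool.Agent.W78.GT
open Pool.Agent.W78.GA (Qd nm prim lat nm_mul nm_natCast)

variable {t c : ℤ}

/-- the data from an element of the ideal -/
theorem dat_of {B d A : ℕ} {r : ℤ} (hA1 : 1 ≤ A) (hAB : A ≤ B) {z : Qd t c}
    (hnm : nm z = d * A) (hlat : (d : ℤ) ∣ z.re + -r * z.im) {k : ℕ} {w : Qd t c} (hk : 1 ≤ k)
    (hz : z = (k : Qd t c) * w) (hw : prim w) : Dat B (d, r) A k w := by
  refine ⟨hA1, hAB, hk, hw, ?_, ?_⟩
  · rw [hz, nm_mul, nm_natCast] at hnm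
    exact hnm
  · simp only
    rw [hz] at hlat
    simp only [QuadraticAlgebra.re_mul, QuadraticAlgebra.re_natCast, QuadraticAlgebra.im_natCast,
      QuadraticAlgebra.im_mul, mul_zero, zero_mul, add_zero] at hlat
    have e1 : (k : ℤ) * (w.re - r * w.im) = k * w.re + -r * (k * w.im) := by ring
    rw [e1]
    exact hlat

theorem typt_neg (h : t ^ 2 < 4 * c) : S_TYPT t c := by
  have hlat : Pool.Agent.W78.GA.S_LAT t c := Pool.Agent.W45.GA.lat h
  have hred : Pool.Agent.W78.GA.S_RED t c := Pool.Agent.W322.GA.red h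
  have hlati : Pool.Agent.W78.GA.S_LATI t c := Pool.Agent.W322.GA.lati_of h hlat hred
  have htyp : Pool.Agent.W78.GA.S_TYP t c := Pool.Agent.W29.GA.typ_of h hlat hlati
  obtain ⟨B, hB⟩ := hred
  refine typ_gen (B := B + 1) (Pool.Agent.W78.GA.pball t c) htyp (by omega) fun d r hd hr => ?_
  have hr' : (d : ℤ) ∣ (-r) ^ 2 - t * (-r) + c := by
    have e1 : (-r) ^ 2 - t * (-r) + c = Qp t c r := by unfold Qp; ring
    rw [e1]
    exact hr
  obtain ⟨A, s, z₁, hA1, hAB, -, -, -, hnm, hlat1, -, -⟩ := hB d (-r) hd hr'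
  have hnz : nm z₁ ≠ 0 := by
    rw [hnm]
    exact (Nat.mul_pos hd hA1).ne'
  obtain ⟨k, w, hk, hz, hw⟩ := content hnz
  refine ⟨A, k, w, dat_of hA1 (by omega) hnm hlat1 hk hz hw, fun X hX => ?_⟩
  rw [Pool.Agent.W78.GA.mem_pball h]
  exact ⟨hw, hX⟩

theorem typt_pos (h : 4 * c < t ^ 2) (hns : ¬ IsSquare (t ^ 2 - 4 * c)) : S_TYPT t c := by
  obtain ⟨η, U⟩ := Pool.Agent.W376.GR.unit h hns
  have hlat : Pool.Agent.W78.GR.S_LAT t c η := Pool.Agent.W398.GR.lat U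
  have hred : Pool.Agent.W78.GR.S_RED t c := Pool.Agent.W880.GR.red U.disc U.nsq
  have hlati : Pool.Agent.W78.GR.S_LATI t c η := Pool.Agent.W880.GR.lati_of U hlat hred
  have htyp : Pool.Agent.W78.GR.S_TYP t c η := Pool.Agent.W29.GR.typ_of U hlat hlati
  obtain ⟨B, hB⟩ := hred
  refine typ_gen (B := B + 1) (Pool.Agent.W78.GR.pball η) htyp (by omega) fun d r hd hr => ?_
  have hr' : (d : ℤ) ∣ (-r) ^ 2 - t * (-r) + c := by
    have e1 : (-r) ^ 2 - t * (-r) + c = Qp t c r := by unfold Qp; ring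
    rw [e1]
    exact hr
  obtain ⟨A, s, z₁, hA1, hAB, -, -, -, htp, hnm, hlat1, -, -⟩ := hB d (-r) hd hr'
  set z₂ := Pool.Agent.W78.GR.rep η z₁ with hz₂
  have hfd : Pool.Agent.W78.GR.fd η z₂ := U.rep_fd htp
  have hnm2 : nm z₂ = d * A := by rw [hz₂, Pool.Agent.W78.GR.Un.nm_rep, hnm]
  have hlat2 : lat d (-r) z₂ := (Pool.Agent.W78.GR.Un.lat_rep hr').2 hlat1
  have hnz : nm z₂ ≠ 0 := by
    rw [hnm2]
    exact (Nat.mul_pos hd hA1).ne'
  obtain ⟨k, w, hk, hz, hw⟩ := content hnz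
  refine ⟨A, k, w, dat_of hA1 (by omega) hnm2 hlat2 hk hz hw, fun X hX => ?_⟩
  have hk0 : (0 : ℝ) < k := by exact_mod_cast hk
  have htpw : Pool.Agent.W78.GR.tp w := by
    have h1 := hfd.1
    rw [hz] at h1
    unfold Pool.Agent.W78.GR.tp at h1 ⊢
    rw [Pool.Agent.W78.GR.s1_mul U.disc, Pool.Agent.W78.GR.s2_mul U.disc,
      Pool.Agent.W78.GR.s1_natCast, Pool.Agent.W78.GR.s2_natCast] at h1
    exact ⟨(mul_pos_iff_of_pos_left hk0).1 h1.1, (mul_pos_iff_of_pos_left hk0).1 h1.2⟩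
  have hang : Pool.Agent.W78.GR.ang η z₂ = Pool.Agent.W78.GR.ang η w := by
    rw [hz, Pool.Agent.W78.GR.ang_mul U.disc (Pool.Agent.W78.GR.tp_natCast hk) htpw,
      Pool.Agent.W78.GR.ang_natCast hk, zero_add]
  rw [U.mem_pball]
  refine ⟨⟨htpw, ?_, ?_⟩, hw, hX⟩
  · rw [← hang]; exact hfd.2.1
  · rw [← hang]; exact hfd.2.2

/-- TYPT -/
theorem typt (hns : ¬ IsSquare (t ^ 2 - 4 * c)) : S_TYPT t c := by
  rcases lt_trichotomy (t ^ 2) (4 * c) with h | h | h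
  · exact typt_neg h
  · exact absurd (by rw [h, sub_self]; exact IsSquare.zero) hns
  · exact typt_pos h hns

end Pool.Agent.W29.GT
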