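import Pool.Agent.W78.GT.Basic
import Pool.Agent.W78.GA.Basic

/-!
Project GT (helper78), task GT-8, part 2: from typical elements to typical roots.
-/

set_option autoImplicit false

namespace Pool.Agent.W29.GT

open Finset Filter
open Pool.Agent.W78.GT
open Pool.Agent.W78.GA (Qd nm prim nm_mul nm_natCast)

variable {t c : ℤ}

/-- dividing by the content -/
theorem content {z : Qd t c} (hz : nm z ≠ 0) : ∃ (k : ℕ) (w : Qd t c), 1 ≤ k ∧
    z = (k : Qd t c) * w ∧ prim w := by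
  have hg : 0 < Int.gcd z.re z.im := by
    rcases Nat.eq_zero_or_pos (Int.gcd z.re z.im) with h | h
    · rw [Int.gcd_eq_zero_iff] at h
      exfalso
      apply hz
      unfold nm
      rw [h.1, h.2]
      simp
    · exact h
  refine ⟨Int.gcd z.re z.im, ⟨z.re / Int.gcd z.re z.im, z.im / Int.gcd z.re z.im⟩, hg, ?_, ?_⟩
  · apply QuadraticAlgebra.ext
    · simp only [QuadraticAlgebra.re_mul, QuadraticAlgebra.re_natCast, QuadraticAlgebra.im_natCast]
      have := Int.mul_ediv_cancel' (Int.gcd_dvd_left z.re z.im)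
      simp only [mul_zero, zero_mul, add_zero]
      exact this.symm
    · simp only [QuadraticAlgebra.im_mul, QuadraticAlgebra.re_natCast, QuadraticAlgebra.im_natCast]
      have := Int.mul_ediv_cancel' (Int.gcd_dvd_right z.re z.im)
      simp only [mul_zero, zero_mul, add_zero]
      exact this.symm
  · unfold prim
    exact Int.gcd_ediv_gcd_ediv_gcd hg

/-- the data of a root: `k z` is in the ideal of the root, `nm (k z) = d A` -/
structure Dat (B : ℕ) (e : ℕ × ℤ) (A k : ℕ) (z : Qd t c) : Prop where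
  A1 : 1 ≤ A
  AB : A ≤ B
  k1 : 1 ≤ k
  pr : prim z
  nmz : k ^ 2 * nm z = e.1 * A
  dv : (e.1 : ℤ) ∣ k * (z.re - e.2 * z.im)

section dat

variable {B : ℕ} {Y : ℝ} {e : ℕ × ℤ} {A k : ℕ} {z : Qd t c}

theorem Dat.d1_dvd (h : Dat B e A k z) :
    ((e.1 / Nat.gcd e.1 k : ℕ) : ℤ) ∣ z.re - e.2 * z.im := by
  have h1 : e.1 ∣ k * (z.re - e.2 * z.im).natAbs := by
    have := Int.natAbs_dvd_natAbs.2 h.dv
    rwa [Int.natAbs_natCast, Int.natAbs_mul, Int.natAbs_natCast] at this
  have hg : 0 < Nat.gcd e.1 k := Nat.gcd_pos_of_pos_right _ h.k1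
  have h2 : e.1 / Nat.gcd e.1 k ∣ (z.re - e.2 * z.im).natAbs := by
    have h3 : Nat.Coprime (e.1 / Nat.gcd e.1 k) (k / Nat.gcd e.1 k) := Nat.coprime_div_gcd_div_gcd hg
    have h4 : e.1 / Nat.gcd e.1 k ∣ (k / Nat.gcd e.1 k) * (z.re - e.2 * z.im).natAbs := by
      have h5 : e.1 = Nat.gcd e.1 k * (e.1 / Nat.gcd e.1 k) :=
        (Nat.mul_div_cancel' (Nat.gcd_dvd_left _ _)).symm
      have h6 : k = Nat.gcd e.1 k * (k / Nat.gcd e.1 k) :=
        (Nat.mul_div_cancel' (Nat.gcd_dvd_right _ _)).symm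
      have h7 : Nat.gcd e.1 k * (e.1 / Nat.gcd e.1 k) ∣
          Nat.gcd e.1 k * ((k / Nat.gcd e.1 k) * (z.re - e.2 * z.im).natAbs) := by
        rw [← mul_assoc, ← h5, ← h6]
        exact h1
      exact Nat.dvd_of_mul_dvd_mul_left hg h7
    exact h3.dvd_of_dvd_mul_left h4
  rw [← Int.natAbs_dvd_natAbs, Int.natAbs_natCast]
  exact h2

theorem Dat.d1_nm (h : Dat B e A k z) (he : (e.1 : ℤ) ∣ Qp t c e.2) :
    e.1 / Nat.gcd e.1 k ∣ nm z := by
  have h1 := h.d1_dvd
  have h2 : ((e.1 / Nat.gcd e.1 k : ℕ) : ℤ) ∣ Qp t c e.2 :=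
    dvd_trans (by exact_mod_cast Nat.div_dvd_of_dvd (Nat.gcd_dvd_left e.1 k)) he
  have h3 : ((e.1 / Nat.gcd e.1 k : ℕ) : ℤ) ∣ z.re ^ 2 + t * z.re * z.im + c * z.im ^ 2 := by
    have e1 : z.re ^ 2 + t * z.re * z.im + c * z.im ^ 2 =
        (z.re - e.2 * z.im) * (z.re + e.2 * z.im + t * z.im) + z.im ^ 2 * Qp t c e.2 := by
      unfold Qp
      ring
    rw [e1]
    exact dvd_add (h1.mul_right _) (h2.mul_left _)
  unfold nm
  have := Int.natAbs_dvd_natAbs.2 h3
  rwa [Int.natAbs_natCast] at this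

theorem Dat.pos (h : Dat B e A k z) (he1 : 1 ≤ e.1) : 0 < nm z := by
  rcases Nat.eq_zero_or_pos (nm z) with h0 | h0
  · have h1 := h.nmz
    rw [h0, mul_zero] at h1
    have h2 := h.A1
    have h3 : 0 < e.1 * A := Nat.mul_pos he1 h2
    omega
  · exact h0

theorem Dat.k_le (h : Dat B e A k z) (he1 : 1 ≤ e.1) (he : (e.1 : ℤ) ∣ Qp t c e.2) : k ≤ B := by
  obtain ⟨m, hm⟩ := h.d1_nm he
  have hpos := h.pos he1
  have hk := h.k1
  have hA := h.AB
  have hA1 := h.A1
  set g := Nat.gcd e.1 k with hg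
  have hg0 : 0 < g := Nat.gcd_pos_of_pos_right _ hk
  have hd : g * (e.1 / g) = e.1 := Nat.mul_div_cancel' (Nat.gcd_dvd_left _ _)
  have hd1 : 0 < e.1 / g := by
    rcases Nat.eq_zero_or_pos (e.1 / g) with h0 | h0
    · rw [h0, mul_zero] at hd; omega
    · exact h0
  have hm0 : 0 < m := by
    rcases Nat.eq_zero_or_pos m with h0 | h0
    · rw [h0, mul_zero] at hm; omega
    · exact h0
  have h1 : (e.1 / g) * (k ^ 2 * m) = (e.1 / g) * (g * A) := by
    have h2 := h.nmz
    rw [hm] at h2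
    calc (e.1 / g) * (k ^ 2 * m) = k ^ 2 * (e.1 / g * m) := by ring
      _ = e.1 * A := h2
      _ = (g * (e.1 / g)) * A := by rw [hd]
      _ = _ := by ring
  have h2 : k ^ 2 * m = g * A := Nat.eq_of_mul_eq_mul_left hd1 h1
  have h3 : g ≤ k := Nat.le_of_dvd hk (Nat.gcd_dvd_right _ _)
  have h4 : k * k ≤ k * A := by
    calc k * k = k ^ 2 * 1 := by ring
      _ ≤ k ^ 2 * m := Nat.mul_le_mul_left _ hm0
      _ = g * A := h2
      _ ≤ k * A := Nat.mul_le_mul_right _ h3
  exact (Nat.le_of_mul_le_mul_left h4 hk).trans hA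

theorem Dat.omega_le (h : Dat B e A k z) (he1 : 1 ≤ e.1) (he : (e.1 : ℤ) ∣ Qp t c e.2) :
    e.1.primeFactors.card ≤ (nm z).primeFactors.card + B := by
  have hkB := h.k_le he1 he
  set g := Nat.gcd e.1 k with hg
  have hg0 : 0 < g := Nat.gcd_pos_of_pos_right _ h.k1
  have hgk : g ≤ k := Nat.le_of_dvd h.k1 (Nat.gcd_dvd_right _ _)
  have hd : g * (e.1 / g) = e.1 := Nat.mul_div_cancel' (Nat.gcd_dvd_left _ _)
  have hd1 : e.1 / g ≠ 0 := by
    intro h0
    rw [h0, mul_zero] at hd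
    omega
  have h1 : e.1.primeFactors = g.primeFactors ∪ (e.1 / g).primeFactors := by
    conv_lhs => rw [← hd]
    exact Nat.primeFactors_mul hg0.ne' hd1
  have h2 : (e.1 / g).primeFactors ⊆ (nm z).primeFactors :=
    Nat.primeFactors_mono (h.d1_nm he) (h.pos he1).ne'
  have h3 : g.primeFactors.card ≤ g := by
    have h4 : g.primeFactors ⊆ Icc 1 g := by
      intro p hp
      rw [mem_Icc]
      exact ⟨(Nat.prime_of_mem_primeFactors hp).one_lt.le,
        Nat.le_of_dvd hg0 (Nat.dvd_of_mem_primeFactors hp)⟩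
    refine (Finset.card_le_card h4).trans ?_
    rw [Nat.card_Icc]
    omega
  rw [h1]
  have h5 := Finset.card_union_le g.primeFactors (e.1 / g).primeFactors
  have h6 := Finset.card_le_card h2
  omega

theorem Dat.inj {f : ℕ × ℤ} (h : Dat B e A k z) (h' : Dat B f A k z)
    (hq : e.2 / ((e.1 / Nat.gcd e.1 k : ℕ) : ℤ) = f.2 / ((f.1 / Nat.gcd f.1 k : ℕ) : ℤ)) :
    e = f := by
  have h1 : e.1 = f.1 := by
    have h2 : e.1 * A = f.1 * A := by rw [← h.nmz, h'.nmz]
    exact Nat.eq_of_mul_eq_mul_right h.A1 h2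
  rw [← h1] at hq
  have hd := h.d1_dvd
  have hd' := h'.d1_dvd
  rw [← h1] at hd'
  set d1 : ℕ := e.1 / Nat.gcd e.1 k with hd1
  have h2 : (d1 : ℤ) ∣ z.im * (f.2 - e.2) := by
    have := dvd_sub hd hd'
    have e1 : z.re - e.2 * z.im - (z.re - f.2 * z.im) = z.im * (f.2 - e.2) := by ring
    rwa [e1] at this
  have h3 : IsCoprime (d1 : ℤ) z.im := by
    have hp : IsCoprime z.re z.im := Int.isCoprime_iff_gcd_eq_one.2 h.pr
    obtain ⟨a, b, hab⟩ := hp
    obtain ⟨m, hm⟩ := hd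
    refine ⟨a * m, a * e.2 + b, ?_⟩
    linear_combination hab - a * hm
  have h4 : (d1 : ℤ) ∣ f.2 - e.2 := h3.dvd_of_dvd_mul_left h2
  have h5 : e.2 % (d1 : ℤ) = f.2 % (d1 : ℤ) :=
    (Int.modEq_iff_dvd.2 h4 : e.2 ≡ f.2 [ZMOD d1])
  have h6 : e.2 = f.2 := by
    rw [← Int.mul_ediv_add_emod e.2 (d1 : ℤ), ← Int.mul_ediv_add_emod f.2 (d1 : ℤ), hq, h5]
  exact Prod.ext h1 h6

end dat

/-- counting -/
theorem count_le {B : ℕ} {Y : ℝ} (S : Finset (ℕ × ℤ)) (Z : Finset (Qd t c)) (hS : S ⊆ rts t c Y)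
    (h : ∀ e ∈ S, ∃ (A k : ℕ) (z : Qd t c), Dat B e A k z ∧ z ∈ Z) :
    S.card ≤ (B + 1) ^ 3 * Z.card := by
  classical
  choose! A k z hdat hz using h
  have hcard : S.card ≤ ((range (B + 1)) ×ˢ ((range (B + 1)) ×ˢ
      ((Ico (0 : ℤ) (B + 1)) ×ˢ Z))).card := by
    apply Finset.card_le_card_of_injOn
      (fun e => (A e, k e, e.2 / ((e.1 / Nat.gcd e.1 (k e) : ℕ) : ℤ), z e))
    · intro e he
      rw [mem_coe] at he
      obtain ⟨a1, a2, a3, a4, a5⟩ := mem_rts.1 (hS he)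
      have hk := (hdat e he).k_le a1 a3
      have hAB := (hdat e he).AB
      have hk1 := (hdat e he).k1
      rw [mem_coe, mem_product, mem_product, mem_product, mem_range, mem_range, mem_Ico]
      refine ⟨by simp only; omega, by simp only; omega, ⟨?_, ?_⟩, hz e he⟩
      · exact Int.ediv_nonneg a4 (Int.natCast_nonneg _)
      · simp only
        set g := Nat.gcd e.1 (k e) with hg
        have hg0 : 0 < g := Nat.gcd_pos_of_pos_right _ hk1
        have hgk : g ≤ k e := Nat.le_of_dvd hk1 (Nat.gcd_dvd_right _ _)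
        have hd : g * (e.1 / g) = e.1 := Nat.mul_div_cancel' (Nat.gcd_dvd_left _ _)
        have hd1 : 0 < e.1 / g := by
          rcases Nat.eq_zero_or_pos (e.1 / g) with h0 | h0
          · rw [h0, mul_zero] at hd; omega
          · exact h0
        have h1 : e.2 / ((e.1 / g : ℕ) : ℤ) < g := by
          apply Int.ediv_lt_of_lt_mul (by exact_mod_cast hd1)
          have h2 : ((g : ℤ)) * ((e.1 / g : ℕ) : ℤ) = e.1 := by exact_mod_cast hd
          rw [h2]
          exact a5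
        have h2 : (g : ℤ) ≤ B := by exact_mod_cast hgk.trans hk
        omega
    · intro e he f hf hef
      rw [mem_coe] at he hf
      simp only [Prod.mk.injEq] at hef
      obtain ⟨h1, h2, h3, h4⟩ := hef
      have hf' := hdat f hf
      rw [← h1, ← h2, ← h4] at hf'
      rw [← h2] at h3
      exact (hdat e he).inj hf' h3
  refine hcard.trans (le_of_eq ?_)
  rw [card_product, card_product, card_product, card_range, Int.card_Ico]
  have : ((B : ℤ) + 1 - 0).toNat = B + 1 := by omega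
  rw [this]
  ring

/-- from typical elements to typical roots -/
theorem typ_gen (PB : ℝ → Finset (Qd t c))
    (hT : ∀ ε δ : ℝ, 0 < ε → 0 < δ → ∃ X₀ : ℝ, ∀ X : ℝ, X₀ ≤ X →
      (((PB X).filter (fun z =>
        (1 + ε) * Real.log (Real.log X) < (((nm z).primeFactors.card : ℕ) : ℝ))).card : ℝ) ≤ δ * X)
    {B : ℕ} (hB : 1 ≤ B)
    (hR : ∀ (d : ℕ) (r : ℤ), 1 ≤ d → (d : ℤ) ∣ Qp t c r → ∃ (A k : ℕ) (z : Qd t c),
      Dat B (d, r) A k z ∧ ∀ X : ℝ, (nm z : ℝ) ≤ X → z ∈ PB X) : S_TYPT t c := by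
  classical
  intro ε δ hε hδ
  have hBR : (1 : ℝ) ≤ B := by exact_mod_cast hB
  obtain ⟨X₁, hX₁⟩ := hT (ε / 2) (δ / ((B + 1) ^ 3 * B)) (by positivity) (by positivity)
  have hlim : Tendsto (fun x : ℝ => Real.log (Real.log x)) atTop atTop :=
    Real.tendsto_log_atTop.comp Real.tendsto_log_atTop
  obtain ⟨Y₁, hY₁⟩ := Filter.eventually_atTop.1
    (hlim.eventually_ge_atTop ((((1 + ε / 2) * Real.log 2 + B) / (ε / 2))))
  refine ⟨max (max X₁ Y₁) (max B 3), fun X hX => ?_⟩
  have hXX₁ : X₁ ≤ X := ((le_max_left _ _).trans (le_max_left _ _)).trans hX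
  have hXY₁ : Y₁ ≤ X := ((le_max_right _ _).trans (le_max_left _ _)).trans hX
  have hXB : (B : ℝ) ≤ X := ((le_max_left _ _).trans (le_max_right _ _)).trans hX
  have hX3 : 3 ≤ X := ((le_max_right _ _).trans (le_max_right _ _)).trans hX
  have hX0 : 0 < X := by linarith
  have hBX : X ≤ B * X := by nlinarith
  have h1 := hX₁ (B * X) (hXX₁.trans hBX)
  have hll := hY₁ X hXY₁
  rw [div_le_iff₀ (by positivity)] at hll
  have hlog1 : 0 < Real.log X := Real.log_pos (by linarith)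
  have hloglog : Real.log (Real.log (B * X)) ≤ Real.log 2 + Real.log (Real.log X) := by
    rw [← Real.log_mul (by norm_num) hlog1.ne']
    have h2 : Real.log (B * X) = Real.log B + Real.log X :=
      Real.log_mul (by positivity) hX0.ne'
    have h3 : Real.log B ≤ Real.log X := Real.log_le_log (by positivity) hXB
    have h4 : 0 ≤ Real.log B := Real.log_nonneg hBR
    apply Real.log_le_log (by rw [h2]; linarith)
    rw [h2]
    linarith
  set S := (rts t c X).filter (fun e =>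
    (1 + ε) * Real.log (Real.log X) < ((e.1.primeFactors.card : ℕ) : ℝ)) with hS
  set Z := (PB (B * X)).filter (fun z =>
        (1 + ε / 2) * Real.log (Real.log (B * X)) < (((nm z).primeFactors.card : ℕ) : ℝ)) with hZ
  have hcount : S.card ≤ (B + 1) ^ 3 * Z.card := by
    apply count_le (Y := X) S Z (Finset.filter_subset _ _)
    intro e he
    rw [hS, mem_filter] at he
    obtain ⟨a1, a2, a3, a4, a5⟩ := mem_rts.1 he.1
    obtain ⟨A, k, z, hdat, hz⟩ := hR e.1 e.2 a1 a3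
    refine ⟨A, k, z, hdat, ?_⟩
    rw [hZ, mem_filter]
    constructor
    · apply hz
      have h2 : k ^ 2 * nm z = e.1 * A := hdat.nmz
      have hk := hdat.k1
      have hA := hdat.AB
      have h3 : nm z ≤ e.1 * B := by
        calc nm z = 1 * nm z := (one_mul _).symm
          _ ≤ k ^ 2 * nm z := Nat.mul_le_mul_right _ (Nat.one_le_pow _ _ hk)
          _ = e.1 * A := h2
          _ ≤ e.1 * B := Nat.mul_le_mul_left _ hA
      have h4 : (nm z : ℝ) ≤ e.1 * B := by exact_mod_cast h3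
      nlinarith
    · have h2 := hdat.omega_le a1 a3
      have h3 : ((e.1.primeFactors.card : ℕ) : ℝ) ≤ ((nm z).primeFactors.card : ℕ) + B := by
        exact_mod_cast h2
      have h4 := he.2
      have h5 : (1 + ε / 2) * Real.log (Real.log (B * X)) ≤
          (1 + ε / 2) * (Real.log 2 + Real.log (Real.log X)) :=
        mul_le_mul_of_nonneg_left hloglog (by positivity)
      nlinarith
  have h2 : (S.card : ℝ) ≤ (B + 1) ^ 3 * Z.card := by exact_mod_cast hcount
  refine h2.trans ?_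
  calc ((B : ℝ) + 1) ^ 3 * Z.card ≤ (B + 1) ^ 3 * (δ / ((B + 1) ^ 3 * B) * (B * X)) :=
        mul_le_mul_of_nonneg_left h1 (by positivity)
    _ = δ * X := by field_simp

end Pool.Agent.W29.GT
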