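import Pool.Agent.W29.GT.Box

/-!
Project GT (helper78), task GT-6, part 2: from vertices to triples.
-/

set_option autoImplicit false

namespace Pool.Agent.W29.GT

open Finset Filter
open Pool.Agent.W78.GT

variable {t c : ℤ}

/-- partial summation -/
theorem sum_inv_sqrt {C : ℝ} (hC : 0 < C)
    (hroot : ∀ Y : ℝ, 0 ≤ Y → ((rts t c Y).card : ℝ) ≤ C * Y) {R : ℝ} (hR : 0 < R)
    (S : Finset (ℕ × ℤ)) (hS : S ⊆ rts t c R) :
    ∑ e ∈ S, 1 / Real.sqrt (e.1 : ℝ) ≤ 4 * C * Real.sqrt R := by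
  classical
  set lev : ℕ × ℤ → ℕ := fun e => Nat.log 4 ⌊R / (e.1 : ℝ)⌋₊ with hlev
  have hfac : ∀ e ∈ S, (e.1 : ℝ) ≤ R / 4 ^ (lev e) ∧ R / 4 ^ (lev e + 1) < (e.1 : ℝ) := by
    intro e he
    obtain ⟨e1, e2, -⟩ := mem_rts.1 (hS he)
    have hd : (0 : ℝ) < e.1 := by exact_mod_cast e1
    have h1 : 1 ≤ R / (e.1 : ℝ) := by rw [le_div_iff₀ hd]; linarith
    have h2 : 1 ≤ ⌊R / (e.1 : ℝ)⌋₊ := Nat.le_floor (by exact_mod_cast h1)
    have h3 : 4 ^ (lev e) ≤ ⌊R / (e.1 : ℝ)⌋₊ := Nat.pow_log_le_self 4 (by omega)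
    have h4 : ⌊R / (e.1 : ℝ)⌋₊ < 4 ^ (lev e + 1) := Nat.lt_pow_succ_log_self (by norm_num) _
    constructor
    · have h5 : ((4 ^ (lev e) : ℕ) : ℝ) ≤ R / (e.1 : ℝ) :=
        le_trans (by exact_mod_cast h3) (Nat.floor_le (by positivity))
      push_cast at h5
      rw [le_div_iff₀ hd] at h5
      rw [le_div_iff₀ (by positivity)]
      linarith
    · have h5 : R / (e.1 : ℝ) < ((4 ^ (lev e + 1) : ℕ) : ℝ) := by
        refine lt_of_lt_of_le (Nat.lt_floor_add_one _) ?_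
        exact_mod_cast h4
      push_cast at h5
      rw [div_lt_iff₀ hd] at h5
      rw [div_lt_iff₀ (by positivity)]
      linarith
  obtain ⟨J, hJ⟩ : ∃ J : ℕ, ∀ e ∈ S, lev e ∈ range J := by
    refine ⟨S.sup lev + 1, fun e he => ?_⟩
    rw [mem_range]
    have := Finset.le_sup (f := lev) he
    omega
  rw [← Finset.sum_fiberwise_of_maps_to hJ]
  have hsR : 0 < Real.sqrt R := Real.sqrt_pos.2 hR
  have hRR : Real.sqrt R * Real.sqrt R = R := Real.mul_self_sqrt hR.le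
  have h1 : ∀ j ∈ range J, ∑ e ∈ S.filter (fun e => lev e = j), 1 / Real.sqrt (e.1 : ℝ) ≤
      2 * C * Real.sqrt R * (1 / 2) ^ j := by
    intro j _
    have h2 : ∀ e ∈ S.filter (fun e => lev e = j), 1 / Real.sqrt (e.1 : ℝ) ≤
        2 ^ (j + 1) / Real.sqrt R := by
      intro e he
      rw [mem_filter] at he
      have h3 := (hfac e he.1).2
      rw [he.2] at h3
      have hd : (0 : ℝ) < e.1 := lt_trans (by positivity) h3
      have h4 : Real.sqrt R / 2 ^ (j + 1) ≤ Real.sqrt (e.1 : ℝ) := by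
        apply Real.le_sqrt_of_sq_le
        rw [div_pow, Real.sq_sqrt hR.le, ← pow_mul, mul_comm (j + 1) 2, pow_mul]
        norm_num
        exact h3.le
      rw [div_le_div_iff₀ (Real.sqrt_pos.2 hd) hsR]
      rw [div_le_iff₀ (by positivity)] at h4
      linarith
    have h3 : (((S.filter (fun e => lev e = j)).card : ℕ) : ℝ) ≤ C * (R / 4 ^ j) := by
      refine le_trans ?_ (hroot (R / 4 ^ j) (by positivity))
      have hsub : S.filter (fun e => lev e = j) ⊆ rts t c (R / 4 ^ j) := by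
        intro e he
        rw [mem_filter] at he
        obtain ⟨e1, e2, e3, e4, e5⟩ := mem_rts.1 (hS he.1)
        have h4 := (hfac e he.1).1
        rw [he.2] at h4
        exact mem_rts.2 ⟨e1, h4, e3, e4, e5⟩
      exact Nat.cast_le.2 (Finset.card_le_card hsub)
    refine (Finset.sum_le_card_nsmul _ _ _ h2).trans ?_
    rw [nsmul_eq_mul]
    refine (mul_le_mul_of_nonneg_right h3 (by positivity)).trans (le_of_eq ?_)
    have h4 : (4 : ℝ) ^ j = 2 ^ j * 2 ^ j := by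
      rw [← mul_pow]; norm_num
    have h5 : (1 / 2 : ℝ) ^ j = 1 / 2 ^ j := by rw [one_div, inv_pow, one_div]
    rw [h4, h5, pow_succ]
    have h6 : R = Real.sqrt R * Real.sqrt R := hRR.symm
    have h2j : (2 : ℝ) ^ j ≠ 0 := by positivity
    calc C * (R / (2 ^ j * 2 ^ j)) * (2 ^ j * 2 / Real.sqrt R)
        = C * ((Real.sqrt R * Real.sqrt R) / (2 ^ j * 2 ^ j)) * (2 ^ j * 2 / Real.sqrt R) := by
          rw [← h6]
      _ = _ := by field_simp
  refine (Finset.sum_le_sum h1).trans ?_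
  rw [← Finset.mul_sum]
  have h2 : ∑ j ∈ range J, (1 / 2 : ℝ) ^ j ≤ 2 := by
    rw [geom_sum_eq (by norm_num)]
    have : 0 < (1 / 2 : ℝ) ^ J := by positivity
    rw [div_le_iff_of_neg (by norm_num)]
    linarith
  have h3 : 0 ≤ 2 * C * Real.sqrt R := by positivity
  nlinarith

/-- the number of triples with a given first vertex -/
theorem fib_card {X : ℝ} (hX : 1 ≤ X) {v : ℕ × ℤ} (hv : v ∈ rts t c X) (S : Finset Tr)
    (hS : ∀ e ∈ S, e ∈ tri t c X X ∧ vx e = v) :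
    ((S.card : ℕ) : ℝ) ≤ (Real.sqrt (4 + |((t ^ 2 - 4 * c : ℤ) : ℝ)|) + 1) *
      Real.sqrt (X / v.1) := by
  classical
  set B : ℝ := 4 + |((t ^ 2 - 4 * c : ℤ) : ℝ)| with hB
  have hB0 : 0 < B := by rw [hB]; positivity
  obtain ⟨v1, v2, v3, v4, v5⟩ := mem_rts.1 hv
  have hd : (0 : ℝ) < v.1 := by exact_mod_cast v1
  have hd1 : (1 : ℝ) ≤ v.1 := by exact_mod_cast v1
  have hX1 : 1 ≤ X / v.1 := by rw [le_div_iff₀ hd]; linarith
  have hs1 : 1 ≤ Real.sqrt (X / v.1) := by rw [Real.one_le_sqrt]; exact hX1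
  rcases S.eq_empty_or_nonempty with h | hne
  · rw [h, card_empty, Nat.cast_zero]
    positivity
  set k : Tr → ℤ := fun e => e.2.1 / (v.1 : ℤ) with hk
  have hdec : ∀ e ∈ S, e.2.1 = v.1 * k e + v.2 := by
    intro e he
    have h1 := (hS e he).2
    unfold vx at h1
    have h2 : e.1 = v.1 := congrArg Prod.fst h1
    have h3 : e.2.1 % (e.1 : ℤ) = v.2 := congrArg Prod.snd h1
    rw [h2] at h3
    have h4 := Int.mul_ediv_add_emod e.2.1 (v.1 : ℤ)
    rw [h3] at h4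
    exact h4.symm
  have hinj : ∀ e ∈ S, ∀ f ∈ S, k e = k f → e = f := by
    intro e he f hf h
    apply tri_ext (hS e he).1 (hS f hf).1
    · have h1 := congrArg Prod.fst ((hS e he).2.trans (hS f hf).2.symm)
      exact h1
    · rw [hdec e he, hdec f hf, h]
  obtain ⟨e₀, he₀, hmin⟩ := Finset.exists_min_image S k hne
  obtain ⟨e₁, he₁, hmax⟩ := Finset.exists_max_image S k hne
  have hle : k e₀ ≤ k e₁ := hmin e₁ he₁
  have hcard : S.card ≤ (k e₁ + 1 - k e₀).toNat := by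
    rw [← Int.card_Icc, ← Finset.card_image_of_injOn (f := k) (s := S)
      (fun u hu u' hu' h => hinj u hu u' hu' h)]
    apply Finset.card_le_card
    intro y hy
    rw [mem_image] at hy
    obtain ⟨u, hu, rfl⟩ := hy
    rw [mem_Icc]
    exact ⟨hmin u hu, hmax u hu⟩
  have hcard' : ((S.card : ℕ) : ℝ) ≤ ((k e₁ - k e₀ : ℤ) : ℝ) + 1 := by
    have h1 : ((S.card : ℕ) : ℤ) ≤ k e₁ + 1 - k e₀ := by
      have : ((k e₁ + 1 - k e₀).toNat : ℤ) = k e₁ + 1 - k e₀ := Int.toNat_of_nonneg (by omega)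
      rw [← this]
      exact_mod_cast hcard
    have h2 : (((S.card : ℕ) : ℤ) : ℝ) ≤ ((k e₁ + 1 - k e₀ : ℤ) : ℝ) := by exact_mod_cast h1
    push_cast at h2 ⊢
    linarith
  -- the length of the interval
  have hN : ((2 * e₁.2.1 + t : ℤ) : ℝ) ≤ Real.sqrt (B * (v.1 * X)) := by
    apply Real.le_sqrt_of_sq_le
    have h1 := disc_tri (hS e₁ he₁).1
    obtain ⟨a1, a2, a3, a4, a5, a6⟩ := mem_tri.1 (hS e₁ he₁).1
    have h2 : e₁.1 = v.1 := congrArg Prod.fst (hS e₁ he₁).2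
    have h3 : (((2 * e₁.2.1 + t : ℤ) : ℝ)) ^ 2
        = 4 * ((e₁.1 : ℝ) * e₁.2.2) + ((t ^ 2 - 4 * c : ℤ) : ℝ) := by
      have := congrArg (fun z : ℤ => (z : ℝ)) h1
      push_cast at this ⊢
      exact this
    rw [h3, h2]
    have h4 : (v.1 : ℝ) * e₁.2.2 ≤ v.1 * X := mul_le_mul_of_nonneg_left a4 hd.le
    have h5 : 1 ≤ (v.1 : ℝ) * X := by nlinarith
    have h6 := le_abs_self (((t ^ 2 - 4 * c : ℤ) : ℝ))
    have h7 : 0 ≤ |((t ^ 2 - 4 * c : ℤ) : ℝ)| := abs_nonneg _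
    rw [hB]
    nlinarith
  have hlen : ((k e₁ - k e₀ : ℤ) : ℝ) * v.1 ≤ Real.sqrt (B * (v.1 * X)) := by
    have h1 : (v.1 : ℤ) * (k e₁ - k e₀) = e₁.2.1 - e₀.2.1 := by
      rw [hdec e₁ he₁, hdec e₀ he₀]; ring
    obtain ⟨-, -, -, -, -, a6⟩ := mem_tri.1 (hS e₀ he₀).1
    have h2 : 0 ≤ (v.1 : ℤ) * (k e₁ - k e₀) := mul_nonneg (by positivity) (by linarith)
    have h3 : (k e₁ - k e₀) * v.1 ≤ 2 * e₁.2.1 + t := by
      rw [mul_comm]
      linarith
    have h4 : (((k e₁ - k e₀) * v.1 : ℤ) : ℝ) ≤ ((2 * e₁.2.1 + t : ℤ) : ℝ) := by exact_mod_cast h3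
    refine le_trans ?_ hN
    push_cast at h4 ⊢
    exact h4
  have hsq : Real.sqrt (B * (v.1 * X)) = Real.sqrt B * Real.sqrt (X / v.1) * v.1 := by
    have h1 : B * (v.1 * X) = B * (X / v.1) * (v.1 : ℝ) ^ 2 := by field_simp
    rw [h1, Real.sqrt_mul (by positivity), Real.sqrt_mul hB0.le, Real.sqrt_sq hd.le]
  rw [hsq] at hlen
  have hlen' := le_of_mul_le_mul_right hlen hd
  linarith

/-- triples with first vertex in `V` -/
theorem half_of {C : ℝ} (hC : 0 < C)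
    (hroot : ∀ Y : ℝ, 0 ≤ Y → ((rts t c Y).card : ℝ) ≤ C * Y) {κ X : ℝ} (V : Finset (ℕ × ℤ))
    (hκ : 0 < κ) (hX : 1 ≤ X) (hV : V ⊆ rts t c X) (S : Finset Tr)
    (hS : ∀ e ∈ S, e ∈ tri t c X X ∧ vx e ∈ V) :
    ((S.card : ℕ) : ℝ) ≤ (Real.sqrt (4 + |((t ^ 2 - 4 * c : ℤ) : ℝ)|) + 1) * (4 * C + 1) *
      (κ * X + (V.card : ℝ) / κ) := by
  classical
  set B : ℝ := Real.sqrt (4 + |((t ^ 2 - 4 * c : ℤ) : ℝ)|) + 1 with hB
  have hB0 : 0 < B := by rw [hB]; positivity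
  have hX0 : 0 < X := by linarith
  rw [Finset.card_eq_sum_card_fiberwise (fun e he => (hS e he).2)]
  push_cast
  have h1 : ∀ v ∈ V, (((S.filter (fun e => vx e = v)).card : ℕ) : ℝ) ≤
      B * Real.sqrt (X / v.1) := by
    intro v hv
    refine fib_card hX (hV hv) _ fun e he => ?_
    rw [mem_filter] at he
    exact ⟨(hS e he.1).1, he.2⟩
  refine (Finset.sum_le_sum h1).trans ?_
  rw [← Finset.mul_sum, mul_assoc]
  apply mul_le_mul_of_nonneg_left _ hB0.le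
  rw [← Finset.sum_filter_add_sum_filter_not V (fun v => ((v.1 : ℕ) : ℝ) ≤ κ ^ 2 * X)]
  have h2 : ∑ v ∈ V.filter (fun v => ((v.1 : ℕ) : ℝ) ≤ κ ^ 2 * X), Real.sqrt (X / v.1) ≤
      4 * C * (κ * X) := by
    have h3 := sum_inv_sqrt hC hroot (R := κ ^ 2 * X) (by positivity)
      (V.filter (fun v => ((v.1 : ℕ) : ℝ) ≤ κ ^ 2 * X)) (by
        intro e he
        rw [mem_filter] at he
        obtain ⟨a1, a2, a3, a4, a5⟩ := mem_rts.1 (hV he.1)
        exact mem_rts.2 ⟨a1, he.2, a3, a4, a5⟩)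
    have h4 : ∑ v ∈ V.filter (fun v => ((v.1 : ℕ) : ℝ) ≤ κ ^ 2 * X), Real.sqrt (X / v.1)
        = Real.sqrt X * ∑ v ∈ V.filter (fun v => ((v.1 : ℕ) : ℝ) ≤ κ ^ 2 * X),
          1 / Real.sqrt (v.1 : ℝ) := by
      rw [Finset.mul_sum]
      refine Finset.sum_congr rfl fun v _ => ?_
      rw [Real.sqrt_div hX0.le]
      ring
    rw [h4]
    have h5 : Real.sqrt (κ ^ 2 * X) = κ * Real.sqrt X := by
      rw [Real.sqrt_mul (by positivity), Real.sqrt_sq hκ.le]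
    rw [h5] at h3
    have h6 : Real.sqrt X * Real.sqrt X = X := Real.mul_self_sqrt hX0.le
    calc Real.sqrt X * _ ≤ Real.sqrt X * (4 * C * (κ * Real.sqrt X)) :=
          mul_le_mul_of_nonneg_left h3 (by positivity)
      _ = 4 * C * (κ * (Real.sqrt X * Real.sqrt X)) := by ring
      _ = _ := by rw [h6]
  have h3 : ∑ v ∈ V.filter (fun v => ¬ ((v.1 : ℕ) : ℝ) ≤ κ ^ 2 * X), Real.sqrt (X / v.1) ≤
      (V.card : ℝ) / κ := by
    have h4 : ∀ v ∈ V.filter (fun v => ¬ ((v.1 : ℕ) : ℝ) ≤ κ ^ 2 * X),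
        Real.sqrt (X / v.1) ≤ 1 / κ := by
      intro v hv
      rw [mem_filter] at hv
      have h5 : κ ^ 2 * X < v.1 := not_le.1 hv.2
      have h6 : (0 : ℝ) < v.1 := lt_trans (by positivity) h5
      rw [Real.sqrt_le_left (by positivity), div_pow, one_pow, div_le_div_iff₀ h6 (by positivity)]
      linarith
    refine (Finset.sum_le_card_nsmul _ _ _ h4).trans ?_
    rw [nsmul_eq_mul, mul_one_div]
    apply div_le_div_of_nonneg_right _ hκ.le
    exact_mod_cast Finset.card_filter_le _ _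
  have h4 : 0 ≤ (V.card : ℝ) / κ := by positivity
  have h5 : 0 ≤ κ * X := by positivity
  nlinarith [mul_nonneg hC.le h4]

/-- VET -/
theorem vet_of (hroot : S_ROOT t c) : S_VET t c := by
  classical
  obtain ⟨C, hC, hr⟩ := hroot
  refine ⟨2 * ((Real.sqrt (4 + |((t ^ 2 - 4 * c : ℤ) : ℝ)|) + 1) * (4 * C + 1)), by positivity,
    fun κ X V hκ _ hX hV => ?_⟩
  have h1 := half_of hC hr V hκ hX hV ((tri t c X X).filter (fun e => vx e ∈ V)) (by
    intro e he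
    rwa [mem_filter] at he)
  have h2 := half_of hC hr V hκ hX hV
    (((tri t c X X).filter (fun e => vy e ∈ V)).image (fun e : Tr => (e.2.2, e.2.1, e.1))) (by
    intro e he
    rw [mem_image] at he
    obtain ⟨f, hf, rfl⟩ := he
    rw [mem_filter] at hf
    exact ⟨tri_swap.2 hf.1, hf.2⟩)
  rw [Finset.card_image_of_injective _ (by
    rintro ⟨a, b, d⟩ ⟨a', b', d'⟩ h
    simp only [Prod.mk.injEq] at h
    obtain ⟨h1, h2, h3⟩ := h
    subst h1 h2 h3
    rfl)] at h2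
  have h3 : (((tri t c X X).filter (fun e => vx e ∈ V ∨ vy e ∈ V)).card : ℝ) ≤
      (((tri t c X X).filter (fun e => vx e ∈ V)).card : ℝ) +
        (((tri t c X X).filter (fun e => vy e ∈ V)).card : ℝ) := by
    rw [Finset.filter_or]
    exact_mod_cast Finset.card_union_le _ _
  refine h3.trans ?_
  calc _ ≤ _ := add_le_add h1 h2
    _ = _ := by ring

end Pool.Agent.W29.GT
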